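import Pool.Agent.TH189.Se7

/-!
# Smooth subvarieties of codimension two with large finite groups of symmetries

Let `X ⊂ ℙⁿ`, `n ≥ 6`, be a nonsingular subvariety of codimension two which is the zero scheme of a
section of a rank two bundle `E` (for `n ≥ 6` every nonsingular `X` of codimension two is of this
form, by the theorems of Barth-Larsen and Serre), and which is cut out set-theoretically by forms of
degree at most `d`.  We prove that `X` is a transversal intersection of two hypersurfaces if one of
the following holds:

* `X` is preserved by an invertible matrix `g` such that no power `g ^ m` with `0 < m ≤ (2 d)ⁿ` is a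
  scalar matrix;
* `X` is preserved by more than `((n + 1) (2 d)²ⁿ)^((n + 1)³)` invertible matrices which are pairwise
  not proportional.

In particular this applies to the fourfolds in `ℙ⁶`.  For an infinite group the conclusion is known:
the group then contains a one-parameter group, so that `X` is Fano, and Fano manifolds of codimension
two are complete intersections (Ballico-Chiantini; Kumar-Peterson-Rao).  The point of this file are
the finite groups, with explicit bounds.  (`MP_9a3fdb_ag.ManyAutomorphisms` has the same bounds for
every codimension `r` with `17 r ≤ n + 1`, so for `n ≥ 33` if `r = 2`.)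

The proof is self-contained.  (1) A linear vector field which is tangent to `X` lifts to `E`, and the
lift multiplies the section by a constant.  This is the infinitesimal form of the uniqueness in the
Serre correspondence: let `s_k` be the products of the section with a basis of `H⁰(E(m))`; a two-form
annihilated by the Koszul differential of the `s_k` is a constant multiple of the determinant form up
to a boundary, because regular functions on `X` are constant and `H¹(𝒪(k)) = 0`.  (2) By a numerical
argument with the weights at the fixed points of the torus, for `n ≥ 7` in the starting files and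
extended here to `n = 6`, the bundle splits if there is a tangent vector field which is not a
multiple of the Euler field.  (3) If `g` preserves `X`, every additive function of its eigenvalues
and the logarithm of its unipotent part give tangent vector fields; so `g` has a scalar power, and
the bounds follow from an argument with the lattice of the relations between the eigenvalues and
Burnside's trace argument.
-/

set_option autoImplicit false

namespace Pool.Agent.Results.MP_9a3fdb_ag.CodimTwoSymmetries

open MvPolynomial H960VB

/-- the affine cone over the projective zero set `X` of the ideal `I` -/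
def cone {n : ℕ} (I : Ideal (MvPolynomial (Fin (n + 1)) ℂ)) : Set (Fin (n + 1) → ℂ) :=
  {x | ∀ F ∈ I, eval x F = 0}

/-- the gradient at the point `x` -/
noncomputable def grad {n : ℕ} (F : MvPolynomial (Fin (n + 1)) ℂ) (x : Fin (n + 1) → ℂ) :
    Fin (n + 1) → ℂ := fun i => eval x (pderiv i F)

/-- the conormal space at the point `x` of the cone -/
noncomputable def conormal {n : ℕ} (I : Ideal (MvPolynomial (Fin (n + 1)) ℂ))
    (x : Fin (n + 1) → ℂ) : Submodule ℂ (Fin (n + 1) → ℂ) :=
  Submodule.span ℂ {v | ∃ F ∈ I, v = grad F x}

/-- `I` is the homogeneous ideal of a nonsingular irreducible closed subvariety `X` of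
codimension `r` of the complex projective space `ℙⁿ`: it is a homogeneous prime ideal, `X` is not
empty, and at every point of `X` the gradients of the elements of `I` span a space of dimension
`r` (Jacobian criterion). -/
structure IsSmoothVariety (n r : ℕ) (I : Ideal (MvPolynomial (Fin (n + 1)) ℂ)) : Prop where
  prime : I.IsPrime
  homogeneous : ∀ F ∈ I, ∀ d, homogeneousComponent d F ∈ I
  nonempty : ∃ x ∈ cone I, x ≠ 0
  smooth : ∀ x ∈ cone I, x ≠ 0 → Module.finrank ℂ (conormal I x) = r

/-- `X` is a transversal intersection of `r` hypersurfaces: there are forms `F_1, …, F_r` with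
`X = V(F_1, …, F_r)`, with linearly independent differentials at every point of `X`, and
generating the homogeneous ideal `I` of `X`. -/
def IsTransversalIntersection (n r : ℕ) (I : Ideal (MvPolynomial (Fin (n + 1)) ℂ)) : Prop :=
  ∃ F : Fin r → MvPolynomial (Fin (n + 1)) ℂ, (∀ i, ∃ d, (F i).IsHomogeneous d) ∧
    (∀ x, x ∈ cone I ↔ ∀ i, eval x (F i) = 0) ∧
    (∀ x ∈ cone I, x ≠ 0 → LinearIndependent ℂ (fun i => grad (F i) x)) ∧
    I = Ideal.span (Set.range F)

/-- `X` is, as a scheme, the zero scheme of the global section `s` of the rank two bundle `E`: the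
ideal `I` of `X` is the saturation of the ideal generated by the coordinates of `s`. -/
def IsZeroScheme {n : ℕ} (E : Bundle2 n) (s : Fin E.a → MvPolynomial (Fin (n + 1)) ℂ)
    (I : Ideal (MvPolynomial (Fin (n + 1)) ℂ)) : Prop :=
  E.IsSection 0 s ∧ ∀ F, F ∈ I ↔ ∃ N : ℕ, ∀ i, X i ^ N * F ∈ Ideal.span (Set.range s)

/-- The matrix `A` is invertible and maps `X` to itself. -/
def Preserves {n : ℕ} (A : Matrix (Fin (n + 1)) (Fin (n + 1)) ℂ)
    (I : Ideal (MvPolynomial (Fin (n + 1)) ℂ)) : Prop :=
  IsUnit A ∧ ∀ x ∈ cone I, A.mulVec x ∈ cone I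

/-- `X` is cut out set-theoretically by forms of degree at most `d`. -/
def IsCutOut {n : ℕ} (d : ℕ) (I : Ideal (MvPolynomial (Fin (n + 1)) ℂ)) : Prop :=
  ∀ x, (∀ F ∈ I, F.totalDegree ≤ d → eval x F = 0) → x ∈ cone I

/-- `X` has a linear automorphism of order more than `(2 d) ^ n`, or more than
`((n + 1) (2 d) ^ (2 n)) ^ ((n + 1) ^ 3)` linear automorphisms. -/
def IsVerySymmetric {n : ℕ} (d : ℕ) (I : Ideal (MvPolynomial (Fin (n + 1)) ℂ)) : Prop :=
  (∃ g : Matrix (Fin (n + 1)) (Fin (n + 1)) ℂ, Preserves g I ∧
    ∀ m : ℕ, 0 < m → m ≤ (2 * d) ^ n → ∀ c : ℂ, g ^ m ≠ c • 1) ∨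
  ∃ S : Finset (Matrix (Fin (n + 1)) (Fin (n + 1)) ℂ), (∀ A ∈ S, Preserves A I) ∧
    (∀ A ∈ S, ∀ B ∈ S, A ≠ B → ∀ c : ℂ, A ≠ c • B) ∧
    ((n + 1) * (2 * d) ^ (2 * n)) ^ ((n + 1) ^ 3) < S.card

/-- **Smooth subvarieties of codimension two with large finite groups of symmetries** are transversal
intersections. -/
theorem result {n : ℕ} (hn : 6 ≤ n) (I : Ideal (MvPolynomial (Fin (n + 1)) ℂ))
    (hI : IsSmoothVariety n 2 I)
    -- `X` is the zero scheme of a section of `E`
    (E : Bundle2 n) (s : Fin E.a → MvPolynomial (Fin (n + 1)) ℂ) (hs : IsZeroScheme E s I)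
    -- `X` is cut out by forms of degree at most `d`
    (d : ℕ) (hd : 1 ≤ d) (hcut : IsCutOut d I) (hsym : IsVerySymmetric d I) :
    IsTransversalIntersection n 2 I := by
  classical
  by_contra hX
  have Z : Pool.Agent.W467.FX.ZS E s I :=
    { sec := Pool.Agent.W615.sec_iff.2 hs.1
      prime := hI.prime
      mem := fun i => (hs.2 _).2 ⟨0, fun j => by
        rw [pow_zero, one_mul]
        exact Ideal.subset_span ⟨i, rfl⟩⟩
      gen := by
        intro F hF x hx
        obtain ⟨N, hN⟩ := (hs.2 F).1 hF
        obtain ⟨i, hi⟩ : ∃ i, x i ≠ 0 := by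
          by_contra hc
          push Not at hc
          exact hx (funext hc)
        exact ⟨X i ^ N, by rw [map_pow, eval_X]; exact pow_ne_zero _ hi, hN i⟩
      smooth := hI.smooth
      ne := hI.nonempty }
  have hE : ¬ E.Splits := by
    intro hsp
    apply hX
    obtain ⟨F, G, hF, hG, hFG⟩ := Z.ci (by omega) hsp
    have hrange : I = Ideal.span (Set.range ![F, G]) := by
      rw [hFG, Matrix.range_cons, Matrix.range_cons, Matrix.range_empty, Set.union_empty]
      rfl
    refine ⟨![F, G], ?_, ?_, ?_, hrange⟩
    · intro i
      fin_cases i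
      · exact hF
      · exact hG
    · intro x
      constructor
      · intro hx i
        apply hx
        rw [hrange]
        exact Ideal.subset_span ⟨i, rfl⟩
      · intro hx H hH
        have h1 : I ≤ RingHom.ker (eval x) := by
          rw [hrange, Ideal.span_le]
          rintro _ ⟨i, rfl⟩
          exact hx i
        exact h1 hH
    · intro x hx hx0
      exact Pool.Agent.W467.FX.indep_of_span hrange hx (hI.smooth x hx hx0)
  have hsc : ∀ N, TH189.Se.Tan I N → ∃ c : ℂ, N = c • 1 := fun N hN =>
    TH189.Se.tangent_scalar Z hn hI.homogeneous hE hN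
  have hq := TH189.Se.hyq_of Z (by omega) hI.homogeneous hsc
  have htop := TH189.Se.span_top (by omega) hI.prime hsc
  have hσ : Fintype.card (Fin (n + 1)) - 1 = n := by rw [Fintype.card_fin]; omega
  obtain ⟨g, hg, hgm⟩ | ⟨S, hS, hdist, hcard⟩ := hsym
  · obtain ⟨m, hm, hmM, hc⟩ := TH189.Sf.matrix_order hq d hcut hd g hg.1 hg.2
    rw [hσ] at hmM
    obtain ⟨c, hc⟩ := TH189.Se.scalar_mat hI.prime htop _ hc
    exact hgm m hm hmM c hc
  · have h1 := TH189.Sf.matrix_count hq d hd hcut S hS (fun A hA B hB hAB => by
      by_contra hcon
      push Not at hcon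
      obtain ⟨c, hc⟩ := TH189.Se.prop_of_same hI.prime htop (A := A) (hS B hB).1 hcon
      exact hdist A hA B hB hAB c hc)
    rw [hσ, Fintype.card_fin] at h1
    exact absurd h1 (not_le.2 hcard)

end Pool.Agent.Results.MP_9a3fdb_ag.CodimTwoSymmetries
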