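import Mathlib
import Pool.Agent.TH189.Aut5

/-!
# Smooth subvarieties of small codimension with many linear automorphisms

Let `X ⊂ ℙⁿ` be a nonsingular irreducible closed subvariety of codimension `r` with
`17 r ≤ n + 1`.  We prove that `X` is a transversal intersection of `r` hypersurfaces, `r - 1` of
which are hyperplanes, if one of the following conditions holds; here `X` is cut out
set-theoretically by forms of degree at most `d` (every `X` is, for some `d`).

(1) `X` has a linear automorphism of order greater than `(2 d)ⁿ` (finite or infinite).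

(2) `X` has more than `((n + 1) (2 d)²ⁿ)^((n + 1)³)` linear automorphisms.

(3) `X` has infinitely many linear automorphisms.

So the group of the linear automorphisms of a smooth `X` which is not contained in a linear subspace
of dimension `n - r + 1` (in particular, of every smooth `X` of codimension `r` which is not a
transversal intersection) is finite, and its order and its exponent are bounded in terms of `n` and
the degrees of equations of `X`.  (For `n ≥ 2 r + 2` all automorphisms of `X` are linear if `X` is not
degenerate, by the theorem of Barth and Larsen.)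

The proof.  The case of one automorphism of infinite order is the theorem
`MP_9a3fdb_ag.InfiniteAutomorphism` of the starting files.  Let `g` be an automorphism of finite
order; it is diagonal in a basis of the span of `X`.  Consider the lattice generated by the
differences of exponents of the pairs of monomials of the same degree `≤ d` on which `g` acts by the
same scalar.  If its rank is maximal, a determinant of vectors of the lattice bounds the order of `g`
by `(2 d)ⁿ`.  Otherwise there is a one-parameter group acting by the same scalar on the monomials of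
all such pairs; by interpolation it preserves `X`, which gives an automorphism of infinite order.
Finally, a group of matrices of determinant one all of whose elements have bounded order is finite by
Burnside's argument: an element is determined by the traces of its products with the elements of a
basis of the algebra generated by the group.
-/

set_option autoImplicit false

namespace Pool.Agent.Results.MP_9a3fdb_ag.ManyAutomorphisms

open MvPolynomial Pool.Agent.H929R2.Hart

/-- `I` is the homogeneous ideal of a nonsingular irreducible closed subvariety `X` of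
codimension `r` of the complex projective space `ℙⁿ`: it is a homogeneous prime ideal, `X` is not
empty, and at every point of `X` the gradients of the elements of `I` span a space of dimension
`r` (Jacobian criterion).  (`cone I` is the set of the common zeros of `I` in `ℂⁿ⁺¹`, and
`conormal I x` the span of the gradients at `x` of the elements of `I`.) -/
structure IsSmoothVariety (n r : ℕ) (I : Ideal (MvPolynomial (Fin (n + 1)) ℂ)) : Prop where
  prime : I.IsPrime
  homogeneous : ∀ F ∈ I, ∀ d, homogeneousComponent d F ∈ I
  nonempty : ∃ x ∈ cone I, x ≠ 0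
  smooth : ∀ x ∈ cone I, x ≠ 0 → Module.finrank ℂ (conormal I x) = r

/-- `X` is a transversal intersection of `r` hypersurfaces: there are forms `F_1, …, F_r` with
`X = V(F_1, …, F_r)`, with linearly independent differentials at every point of `X`, and
generating the homogeneous ideal `I` of `X`. -/
def IsTransversalIntersection (n r : ℕ) (I : Ideal (MvPolynomial (Fin (n + 1)) ℂ)) : Prop :=
  ∃ F : Fin r → MvPolynomial (Fin (n + 1)) ℂ, (∀ i, ∃ d, (F i).IsHomogeneous d) ∧
    (∀ x, x ∈ cone I ↔ ∀ i, eval x (F i) = 0) ∧
    (∀ x ∈ cone I, x ≠ 0 → LinearIndependent ℂ (fun i => grad (F i) x)) ∧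
    I = Ideal.span (Set.range F)

/-- `X` is contained in a linear subspace of `ℙⁿ` of dimension `n - r + 1`: the span of its cone has
dimension at most `n - r + 2`. -/
def IsDegenerate (n r : ℕ) (I : Ideal (MvPolynomial (Fin (n + 1)) ℂ)) : Prop :=
  Module.finrank ℂ (Submodule.span ℂ (cone I)) + r ≤ n + 2

/-- `X` is cut out set-theoretically by forms of degree at most `d`. -/
def IsCutOut {n : ℕ} (d : ℕ) (I : Ideal (MvPolynomial (Fin (n + 1)) ℂ)) : Prop :=
  ∀ x, (∀ F ∈ I, F.totalDegree ≤ d → eval x F = 0) → x ∈ cone I

/-- The matrix `A` is invertible and maps `X` to itself. -/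
def Preserves {n : ℕ} (A : Matrix (Fin (n + 1)) (Fin (n + 1)) ℂ)
    (I : Ideal (MvPolynomial (Fin (n + 1)) ℂ)) : Prop :=
  IsUnit A ∧ ∀ x ∈ cone I, A.mulVec x ∈ cone I

/-- The matrices `A` and `B` induce different maps on `X`. -/
def Differ {n : ℕ} (A B : Matrix (Fin (n + 1)) (Fin (n + 1)) ℂ)
    (I : Ideal (MvPolynomial (Fin (n + 1)) ℂ)) : Prop :=
  ∃ x ∈ cone I, ∀ c : ℂ, A.mulVec x ≠ c • B.mulVec x

/-- **Smooth subvarieties of small codimension with many linear automorphisms.** -/
theorem result (n r : ℕ) (hn : 17 * r ≤ n + 1) (I : Ideal (MvPolynomial (Fin (n + 1)) ℂ))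
    (hI : IsSmoothVariety n r I) :
    -- an automorphism of large order
    (∀ d : ℕ, 1 ≤ d → IsCutOut d I → ∀ g : Matrix (Fin (n + 1)) (Fin (n + 1)) ℂ,
      Preserves g I → (∀ m : ℕ, 0 < m → m ≤ (2 * d) ^ n → Differ (g ^ m) 1 I) →
      IsTransversalIntersection n r I ∧ IsDegenerate n r I) ∧
    -- many automorphisms
    (∀ d : ℕ, 1 ≤ d → IsCutOut d I → ∀ S : Finset (Matrix (Fin (n + 1)) (Fin (n + 1)) ℂ),
      (∀ A ∈ S, Preserves A I) → (∀ A ∈ S, ∀ B ∈ S, A ≠ B → Differ A B I) →
      ((n + 1) * (2 * d) ^ (2 * n)) ^ ((n + 1) ^ 3) < S.card →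
      IsTransversalIntersection n r I ∧ IsDegenerate n r I) ∧
    -- infinitely many automorphisms
    (∀ S : Set (Matrix (Fin (n + 1)) (Fin (n + 1)) ℂ), S.Infinite →
      (∀ A ∈ S, Preserves A I) → (∀ A ∈ S, ∀ B ∈ S, A ≠ B → Differ A B I) →
      IsTransversalIntersection n r I ∧ IsDegenerate n r I) := by
  classical
  have hσ : Fintype.card (Fin (n + 1)) - 1 = n := by rw [Fintype.card_fin]; omega
  have hfin : r ≤ Module.finrank ℂ (linsub I) + 1 →
      IsTransversalIntersection n r I ∧ IsDegenerate n r I := by
    intro h
    refine ⟨isCI_of_linsub r I hI.prime hI.homogeneous hI.smooth hI.nonempty h, ?_⟩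
    rw [TH189.Aut.finrank_linsub hI.prime, Fintype.card_fin] at h
    have h1 := Submodule.finrank_le (Submodule.span ℂ (cone I))
    rw [Module.finrank_fintype_fun_eq_card, Fintype.card_fin] at h1
    show Module.finrank ℂ (Submodule.span ℂ (cone I)) + r ≤ n + 2
    have h2 : r ≤ n + 1 - Module.finrank ℂ (Submodule.span ℂ (cone I)) + 1 := h
    omega
  have hyp : ¬ r ≤ Module.finrank ℂ (linsub I) + 1 → TH189.Aut.Hyp I r := fun h =>
    ⟨hI.prime, hI.homogeneous, hI.nonempty, hI.smooth, by rw [Fintype.card_fin]; exact hn, h⟩
  have hcount : ∀ d : ℕ, 1 ≤ d → IsCutOut d I →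
      ∀ S : Finset (Matrix (Fin (n + 1)) (Fin (n + 1)) ℂ),
      (∀ A ∈ S, Preserves A I) → (∀ A ∈ S, ∀ B ∈ S, A ≠ B → Differ A B I) →
      ((n + 1) * (2 * d) ^ (2 * n)) ^ ((n + 1) ^ 3) < S.card →
      IsTransversalIntersection n r I ∧ IsDegenerate n r I := by
    intro d hd hcut S hS hdist hcard
    by_cases h : r ≤ Module.finrank ℂ (linsub I) + 1
    · exact hfin h
    exfalso
    have h1 := TH189.Aut.matrix_count (hyp h) d hd hcut S hS hdist
    rw [hσ, Fintype.card_fin] at h1
    omega
  refine ⟨?_, hcount, ?_⟩
  · intro d hd hcut g hg hord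
    by_cases h : r ≤ Module.finrank ℂ (linsub I) + 1
    · exact hfin h
    exfalso
    obtain ⟨m, hm, hmM, hc⟩ := TH189.Aut.matrix_order (hyp h) d hcut hd g hg.1 hg.2
    rw [hσ] at hmM
    obtain ⟨x, hx, hx'⟩ := hord m hm hmM
    obtain ⟨c, hc⟩ := hc x hx
    apply hx' c
    rw [Matrix.one_mulVec]
    exact hc
  · intro S hinf hS hdist
    obtain ⟨d, hd, hcut⟩ := TH189.Aut.exists_cut I
    obtain ⟨T, hTS, hT⟩ := hinf.exists_subset_card_eq
      (((n + 1) * (2 * d) ^ (2 * n)) ^ ((n + 1) ^ 3) + 1)
    exact hcount d hd hcut T (fun A hA => hS A (hTS hA))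
      (fun A hA B hB => hdist A (hTS hA) B (hTS hB)) (by rw [hT]; exact Nat.lt_succ_self _)

end Pool.Agent.Results.MP_9a3fdb_ag.ManyAutomorphisms
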